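import Mathlib

/-!
# A matching polytope whose toric ideal needs a generator of degree five

Let `G` be the graph with vertices `0, …, 9` and the 16 edges
`01, 02, 03, 14, 19, 23, 25, 27, 36, 38, 45, 46, 58, 67, 79, 89`. It has exactly eight perfect
matchings, and the 5-regular multigraph in which the edges occur with the multiplicities
`3, 1, 1, 1, 1, 2, 1, 1, 1, 1, 2, 2, 2, 2, 2, 2` has exactly two 5-edge-colourings up to the names
of the colours, and these have no colour class in common. So every generating set of the toric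
ideal of the matching polytope of `G` contains an element of degree at least five.
-/

set_option autoImplicit false

open MvPolynomial

namespace Pool.Agent.Results.MP_2a9801_co.DegreeFive

universe u v

/-- A matching of the graph `G`: a finite set of edges, no two of which share an endpoint. -/
def Matching {V : Type u} (G : SimpleGraph V) : Type u :=
  {M : Finset (Sym2 V) // (∀ e ∈ M, e ∈ G.edgeSet) ∧
    ∀ e ∈ M, ∀ f ∈ M, ∀ x : V, x ∈ e → x ∈ f → e = f}

/-- The homomorphism `K[x_M : M a matching of G] → K[s, t_e]` that sends `x_M` to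
`s * ∏_{e ∈ M} t_e`. The variable `s` is `X none` and `t_e` is `X (some e)`. -/
noncomputable def toricMap {V : Type u} (G : SimpleGraph V) (K : Type v) [Field K] :
    MvPolynomial (Matching G) K →ₐ[K] MvPolynomial (Option (Sym2 V)) K :=
  aeval fun M => X none * ∏ e ∈ M.1, X (some e)

/-- The toric ideal of the matching polytope of `G` over the field `K` (the lattice points of the
matching polytope are the incidence vectors of the matchings). -/
noncomputable def toricIdeal {V : Type u} (G : SimpleGraph V) (K : Type v) [Field K] :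
    Ideal (MvPolynomial (Matching G) K) :=
  RingHom.ker (toricMap G K)

section general

variable {V : Type u} (G : SimpleGraph V) (K : Type v) [Field K]

/-- The exponent vector of the image of the variable `x_M`. -/
noncomputable def rho (M : Matching G) : Option (Sym2 V) →₀ ℕ :=
  Finsupp.single none 1 + ∑ e ∈ M.1, Finsupp.single (some e) 1

/-- The exponent vector of the image of a monomial. -/
noncomputable def Pi (m : Matching G →₀ ℕ) : Option (Sym2 V) →₀ ℕ :=
  m.sum fun M k => k • rho G M

theorem X_eq (M : Matching G) :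
    (X none * ∏ e ∈ M.1, X (some e) : MvPolynomial (Option (Sym2 V)) K) = monomial (rho G M) 1 := by
  have h : ∀ s : Finset (Sym2 V), (∏ e ∈ s, X (some e) : MvPolynomial (Option (Sym2 V)) K) =
      monomial (∑ e ∈ s, Finsupp.single (some e) 1) 1 := by
    intro s
    rw [monomial_sum_one]
    rfl
  rw [h, rho, X, monomial_mul, one_mul]

theorem toricMap_monomial (m : Matching G →₀ ℕ) (c : K) :
    toricMap G K (monomial m c) = monomial (Pi G m) c := by
  rw [toricMap, aeval_monomial, Pi, Finsupp.prod, Finsupp.sum]
  have : ∀ M ∈ m.support, (X none * ∏ e ∈ M.1, X (some e) : MvPolynomial (Option (Sym2 V)) K) ^ m M =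
      monomial (m M • rho G M) 1 := by
    intro M _
    rw [X_eq, monomial_pow, one_pow]
  rw [Finset.prod_congr rfl this, ← monomial_sum_one, algebraMap_eq, C_mul_monomial, mul_one]

theorem Pi_add (m m' : Matching G →₀ ℕ) : Pi G (m + m') = Pi G m + Pi G m' := by
  classical
  unfold Pi
  rw [Finsupp.sum_add_index']
  · intro M; simp
  · intro M k l; rw [add_smul]

/-- If `m` is the only monomial in its fibre, then its coefficient in any element of the toric
ideal vanishes. -/
theorem coeff_eq_zero {f : MvPolynomial (Matching G) K} (hf : f ∈ toricIdeal G K)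
    {m : Matching G →₀ ℕ} (hm : ∀ m', Pi G m' = Pi G m → m' = m) : coeff m f = 0 := by
  classical
  have h1 : toricMap G K f = 0 := hf
  rw [f.as_sum, map_sum] at h1
  have h2 := congrArg (coeff (Pi G m)) h1
  rw [coeff_sum, coeff_zero] at h2
  have h3 : ∀ m' ∈ f.support, coeff (Pi G m) (toricMap G K (monomial m' (coeff m' f))) =
      if m' = m then coeff m f else 0 := by
    intro m' _
    rw [toricMap_monomial, coeff_monomial]
    by_cases h : m' = m
    · subst h; simp
    · rw [if_neg h, if_neg fun h' => h (hm m' h')]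
  rw [Finset.sum_congr rfl h3, Finset.sum_ite_eq'] at h2
  by_cases h : m ∈ f.support
  · rwa [if_pos h] at h2
  · exact notMem_support_iff.1 h

/-- If the fibre of the monomial `u` of degree `> D` consists of `u` and one further monomial
without common variables, then every generating set of the toric ideal has an element of
degree `> D`. -/
theorem exists_degree {u v : Matching G →₀ ℕ} {D : ℕ} (huv : Pi G u = Pi G v) (hne : u ≠ v)
    (hD : D < u.degree) (hfib : ∀ w, Pi G w = Pi G u → w = u ∨ w = v)
    (hdisj : ∀ M, u M = 0 ∨ v M = 0)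
    (S : Set (MvPolynomial (Matching G) K)) (hS : Ideal.span S = toricIdeal G K) :
    ∃ p ∈ S, D < p.totalDegree := by
  classical
  by_contra hcon
  push Not at hcon
  let L : Ideal (MvPolynomial (Matching G) K) :=
    { carrier := {p | ∀ m : Matching G →₀ ℕ, coeff u (monomial m 1 * p) = 0}
      add_mem' := by
        intro a b ha hb m
        rw [mul_add, coeff_add, ha m, hb m, add_zero]
      zero_mem' := by
        intro m
        rw [mul_zero, coeff_zero]
      smul_mem' := by
        intro q p hp m
        rw [smul_eq_mul, q.as_sum, Finset.sum_mul, Finset.mul_sum, coeff_sum]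
        apply Finset.sum_eq_zero
        intro m' _
        have : monomial m (1 : K) * (monomial m' (coeff m' q) * p) =
            C (coeff m' q) * (monomial (m + m') 1 * p) := by
          rw [← mul_assoc, ← mul_assoc, monomial_mul, C_mul_monomial]
          ring_nf
        rw [this, coeff_C_mul, hp, mul_zero] }
  have hSL : S ⊆ L := by
    intro p hp m
    have hpI : p ∈ toricIdeal G K := hS ▸ Ideal.subset_span hp
    rw [coeff_monomial_mul']
    split_ifs with hmu
    · rw [one_mul]
      by_cases hm0 : m = 0
      · subst hm0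
        rw [tsub_zero]
        apply coeff_eq_zero_of_totalDegree_lt
        exact (hcon p hp).trans_lt hD
      · apply coeff_eq_zero G K hpI
        intro m' hm'
        have h1 : Pi G (m' + m) = Pi G u := by
          rw [Pi_add, hm', ← Pi_add, tsub_add_cancel_of_le hmu]
        rcases hfib _ h1 with h2 | h2
        · rw [← h2, add_tsub_cancel_right]
        · exfalso
          apply hm0
          ext M
          have h3 : m M ≤ u M := hmu M
          have h4 : m M ≤ v M := by
            rw [← h2, Finsupp.add_apply]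
            omega
          rcases hdisj M with h | h <;> rw [Finsupp.zero_apply] <;> omega
    · rfl
  have hIL : toricIdeal G K ≤ L := by
    rw [← hS]
    exact Ideal.span_le.2 hSL
  have hmem : (monomial u (1 : K) - monomial v 1) ∈ toricIdeal G K := by
    show toricMap G K _ = 0
    rw [map_sub, toricMap_monomial, toricMap_monomial, huv, sub_self]
  have h := hIL hmem 0
  rw [← C_apply, C_1, one_mul, coeff_sub, coeff_monomial, coeff_monomial, if_pos rfl,
    if_neg hne.symm, sub_zero] at h
  exact one_ne_zero h

/-- The `s`-exponent of the image of a monomial is its degree. -/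
theorem Pi_none (m : Matching G →₀ ℕ) : Pi G m none = ∑ M ∈ m.support, m M := by
  classical
  rw [Pi, Finsupp.sum, Finsupp.finsetSum_apply]
  apply Finset.sum_congr rfl
  intro M _
  rw [Finsupp.smul_apply, rho, Finsupp.add_apply, Finsupp.finsetSum_apply]
  simp

/-- The `t_e`-exponent of the image of a monomial. -/
theorem Pi_some [DecidableEq V] (m : Matching G →₀ ℕ) (e : Sym2 V) :
    Pi G m (some e) = ∑ M ∈ m.support, m M * (if e ∈ M.1 then 1 else 0) := by
  rw [Pi, Finsupp.sum, Finsupp.finsetSum_apply]
  apply Finset.sum_congr rfl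
  intro M _
  rw [Finsupp.smul_apply, rho, Finsupp.add_apply, Finsupp.finsetSum_apply]
  simp [Finsupp.single_apply]

end general

/-! ### The example -/

/-- The edges. -/
def edge : Fin 16 → Sym2 (Fin 10) :=
  ![s(0, 1), s(0, 2), s(0, 3), s(1, 4), s(1, 9), s(2, 3), s(2, 5), s(2, 7), s(3, 6), s(3, 8),
    s(4, 5), s(4, 6), s(5, 8), s(6, 7), s(7, 9), s(8, 9)]

/-- The graph. -/
def G : SimpleGraph (Fin 10) := SimpleGraph.fromEdgeSet (Set.range edge)

/-- The multiplicities. -/
def mul : Fin 16 → ℕ := ![3, 1, 1, 1, 1, 2, 1, 1, 1, 1, 2, 2, 2, 2, 2, 2]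

theorem edge_inj : Function.Injective edge := by decide

theorem edge_mem (i : Fin 16) : edge i ∈ G.edgeSet := by
  rw [G, SimpleGraph.edgeSet_fromEdgeSet]
  refine ⟨⟨i, rfl⟩, ?_⟩
  revert i
  decide

theorem mem_edge {e : Sym2 (Fin 10)} (h : e ∈ G.edgeSet) : ∃ i, edge i = e := by
  rw [G, SimpleGraph.edgeSet_fromEdgeSet] at h
  exact h.1

/-- The perfect matchings, as sets of indices of edges. -/
def pmIdx : Fin 8 → Finset (Fin 16) :=
  ![{0, 5, 10, 13, 15}, {0, 5, 11, 12, 14}, {0, 6, 9, 11, 14}, {0, 7, 8, 10, 15},
    {1, 3, 8, 12, 14}, {1, 4, 9, 10, 13}, {2, 3, 6, 13, 15}, {2, 4, 7, 11, 12}]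

theorem pm_disj : ∀ (k : Fin 8), ∀ i ∈ pmIdx k, ∀ j ∈ pmIdx k, ∀ x : Fin 10,
    x ∈ edge i → x ∈ edge j → i = j := by decide

/-- The perfect matchings. -/
def pm (k : Fin 8) : Matching G :=
  ⟨(pmIdx k).map ⟨edge, edge_inj⟩, by
    constructor
    · intro e he
      obtain ⟨i, -, rfl⟩ := Finset.mem_map.1 he
      exact edge_mem i
    · intro e he f hf x hxe hxf
      obtain ⟨i, hi, rfl⟩ := Finset.mem_map.1 he
      obtain ⟨j, hj, rfl⟩ := Finset.mem_map.1 hf
      exact congrArg edge (pm_disj k i hi j hj x hxe hxf)⟩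

theorem mem_pm (k : Fin 8) (i : Fin 16) : edge i ∈ (pm k).1 ↔ i ∈ pmIdx k := by
  show edge i ∈ (pmIdx k).map ⟨edge, edge_inj⟩ ↔ _
  exact Finset.mem_map' ⟨edge, edge_inj⟩

theorem pmIdx_inj : Function.Injective pmIdx := by decide

theorem pm_inj : Function.Injective pm := by
  intro k l h
  apply pmIdx_inj
  ext i
  rw [← mem_pm, ← mem_pm, h]

/-- The number of edges of a matching at a vertex. -/
theorem vertex_le (M : Matching G) (x : Fin 10) :
    ∑ i : Fin 16, (if x ∈ edge i then (if edge i ∈ M.1 then 1 else 0) else 0) ≤ 1 := by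
  have h1 : ∀ i : Fin 16, (if x ∈ edge i then (if edge i ∈ M.1 then 1 else 0) else 0 : ℕ) =
      if (x ∈ edge i ∧ edge i ∈ M.1) then 1 else 0 := by
    intro i
    split_ifs <;> simp_all
  rw [Finset.sum_congr rfl fun i _ => h1 i, ← Finset.card_filter, Finset.card_le_one]
  intro i hi j hj
  rw [Finset.mem_filter] at hi hj
  exact edge_inj (M.2.2 _ hi.2.2 _ hj.2.2 x hi.2.1 hj.2.1)

/-- The table of the perfect matchings. -/
def tab : Fin 8 → Fin 16 → ℕ :=
  ![![1, 0, 0, 0, 0, 1, 0, 0, 0, 0, 1, 0, 0, 1, 0, 1],
    ![1, 0, 0, 0, 0, 1, 0, 0, 0, 0, 0, 1, 1, 0, 1, 0],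
    ![1, 0, 0, 0, 0, 0, 1, 0, 0, 1, 0, 1, 0, 0, 1, 0],
    ![1, 0, 0, 0, 0, 0, 0, 1, 1, 0, 1, 0, 0, 0, 0, 1],
    ![0, 1, 0, 1, 0, 0, 0, 0, 1, 0, 0, 0, 1, 0, 1, 0],
    ![0, 1, 0, 0, 1, 0, 0, 0, 0, 1, 1, 0, 0, 1, 0, 0],
    ![0, 0, 1, 1, 0, 0, 1, 0, 0, 0, 0, 0, 0, 1, 0, 1],
    ![0, 0, 1, 0, 1, 0, 0, 1, 0, 0, 0, 1, 1, 0, 0, 0]]

theorem tab_eq : ∀ k i, tab k i = if i ∈ pmIdx k then 1 else 0 := by decide

theorem all16 {p : Fin 16 → Prop} (h0 : p 0) (h1 : p 1) (h2 : p 2) (h3 : p 3) (h4 : p 4) (h5 : p 5) (h6 : p 6) (h7 : p 7) (h8 : p 8) (h9 : p 9) (h10 : p 10) (h11 : p 11) (h12 : p 12) (h13 : p 13) (h14 : p 14) (h15 : p 15) :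
    ∀ i, p i := by
  intro i
  fin_cases i <;> assumption

theorem classify (x : Fin 16 → ℕ) (h0 : x 0 + x 1 + x 2 = 1) (h1 : x 0 + x 3 + x 4 = 1)
    (h2 : x 1 + x 5 + x 6 + x 7 = 1) (h3 : x 2 + x 5 + x 8 + x 9 = 1)
    (h4 : x 3 + x 10 + x 11 = 1) (h5 : x 6 + x 10 + x 12 = 1) (h6 : x 8 + x 11 + x 13 = 1)
    (h7 : x 7 + x 13 + x 14 = 1) (h8 : x 9 + x 12 + x 15 = 1) (h9 : x 4 + x 14 + x 15 = 1) :
    ∃ k : Fin 8, ∀ i, x i = tab k i := by
  have c0 : x 0 = 1 ∨ x 1 = 1 ∨ x 2 = 1 := by omega
  rcases c0 with c | c | c
  · have c2 : x 5 = 1 ∨ x 6 = 1 ∨ x 7 = 1 := by omega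
    rcases c2 with c' | c' | c'
    · have c4 : x 10 = 1 ∨ x 11 = 1 := by omega
      rcases c4 with c'' | c''
      · exact ⟨0, all16
          (show x 0 = 1 by omega)
          (show x 1 = 0 by omega)
          (show x 2 = 0 by omega)
          (show x 3 = 0 by omega)
          (show x 4 = 0 by omega)
          (show x 5 = 1 by omega)
          (show x 6 = 0 by omega)
          (show x 7 = 0 by omega)
          (show x 8 = 0 by omega)
          (show x 9 = 0 by omega)
          (show x 10 = 1 by omega)
          (show x 11 = 0 by omega)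
          (show x 12 = 0 by omega)
          (show x 13 = 1 by omega)
          (show x 14 = 0 by omega)
          (show x 15 = 1 by omega)⟩
      · exact ⟨1, all16
          (show x 0 = 1 by omega)
          (show x 1 = 0 by omega)
          (show x 2 = 0 by omega)
          (show x 3 = 0 by omega)
          (show x 4 = 0 by omega)
          (show x 5 = 1 by omega)
          (show x 6 = 0 by omega)
          (show x 7 = 0 by omega)
          (show x 8 = 0 by omega)
          (show x 9 = 0 by omega)
          (show x 10 = 0 by omega)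
          (show x 11 = 1 by omega)
          (show x 12 = 1 by omega)
          (show x 13 = 0 by omega)
          (show x 14 = 1 by omega)
          (show x 15 = 0 by omega)⟩
    · exact ⟨2, all16
        (show x 0 = 1 by omega)
        (show x 1 = 0 by omega)
        (show x 2 = 0 by omega)
        (show x 3 = 0 by omega)
        (show x 4 = 0 by omega)
        (show x 5 = 0 by omega)
        (show x 6 = 1 by omega)
        (show x 7 = 0 by omega)
        (show x 8 = 0 by omega)
        (show x 9 = 1 by omega)
        (show x 10 = 0 by omega)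
        (show x 11 = 1 by omega)
        (show x 12 = 0 by omega)
        (show x 13 = 0 by omega)
        (show x 14 = 1 by omega)
        (show x 15 = 0 by omega)⟩
    · exact ⟨3, all16
        (show x 0 = 1 by omega)
        (show x 1 = 0 by omega)
        (show x 2 = 0 by omega)
        (show x 3 = 0 by omega)
        (show x 4 = 0 by omega)
        (show x 5 = 0 by omega)
        (show x 6 = 0 by omega)
        (show x 7 = 1 by omega)
        (show x 8 = 1 by omega)
        (show x 9 = 0 by omega)
        (show x 10 = 1 by omega)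
        (show x 11 = 0 by omega)
        (show x 12 = 0 by omega)
        (show x 13 = 0 by omega)
        (show x 14 = 0 by omega)
        (show x 15 = 1 by omega)⟩
  · have c2 : x 3 = 1 ∨ x 4 = 1 := by omega
    rcases c2 with c' | c'
    · exact ⟨4, all16
        (show x 0 = 0 by omega)
        (show x 1 = 1 by omega)
        (show x 2 = 0 by omega)
        (show x 3 = 1 by omega)
        (show x 4 = 0 by omega)
        (show x 5 = 0 by omega)
        (show x 6 = 0 by omega)
        (show x 7 = 0 by omega)
        (show x 8 = 1 by omega)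
        (show x 9 = 0 by omega)
        (show x 10 = 0 by omega)
        (show x 11 = 0 by omega)
        (show x 12 = 1 by omega)
        (show x 13 = 0 by omega)
        (show x 14 = 1 by omega)
        (show x 15 = 0 by omega)⟩
    · exact ⟨5, all16
        (show x 0 = 0 by omega)
        (show x 1 = 1 by omega)
        (show x 2 = 0 by omega)
        (show x 3 = 0 by omega)
        (show x 4 = 1 by omega)
        (show x 5 = 0 by omega)
        (show x 6 = 0 by omega)
        (show x 7 = 0 by omega)
        (show x 8 = 0 by omega)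
        (show x 9 = 1 by omega)
        (show x 10 = 1 by omega)
        (show x 11 = 0 by omega)
        (show x 12 = 0 by omega)
        (show x 13 = 1 by omega)
        (show x 14 = 0 by omega)
        (show x 15 = 0 by omega)⟩
  · have c2 : x 3 = 1 ∨ x 4 = 1 := by omega
    rcases c2 with c' | c'
    · exact ⟨6, all16
        (show x 0 = 0 by omega)
        (show x 1 = 0 by omega)
        (show x 2 = 1 by omega)
        (show x 3 = 1 by omega)
        (show x 4 = 0 by omega)
        (show x 5 = 0 by omega)
        (show x 6 = 1 by omega)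
        (show x 7 = 0 by omega)
        (show x 8 = 0 by omega)
        (show x 9 = 0 by omega)
        (show x 10 = 0 by omega)
        (show x 11 = 0 by omega)
        (show x 12 = 0 by omega)
        (show x 13 = 1 by omega)
        (show x 14 = 0 by omega)
        (show x 15 = 1 by omega)⟩
    · exact ⟨7, all16
        (show x 0 = 0 by omega)
        (show x 1 = 0 by omega)
        (show x 2 = 1 by omega)
        (show x 3 = 0 by omega)
        (show x 4 = 1 by omega)
        (show x 5 = 0 by omega)
        (show x 6 = 0 by omega)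
        (show x 7 = 1 by omega)
        (show x 8 = 0 by omega)
        (show x 9 = 0 by omega)
        (show x 10 = 0 by omega)
        (show x 11 = 1 by omega)
        (show x 12 = 1 by omega)
        (show x 13 = 0 by omega)
        (show x 14 = 0 by omega)
        (show x 15 = 0 by omega)⟩

theorem classify' (y : Fin 16 → ℕ)
    (h : ∀ x : Fin 10, ∑ i : Fin 16, (if x ∈ edge i then y i else 0) = 1) :
    ∃ k : Fin 8, ∀ i, y i = tab k i := by
  apply classify y
  · have := h 0; simp [Fin.sum_univ_succ, edge] at this; omega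
  · have := h 1; simp [Fin.sum_univ_succ, edge] at this; omega
  · have := h 2; simp [Fin.sum_univ_succ, edge] at this; omega
  · have := h 3; simp [Fin.sum_univ_succ, edge] at this; omega
  · have := h 4; simp [Fin.sum_univ_succ, edge] at this; omega
  · have := h 5; simp [Fin.sum_univ_succ, edge] at this; omega
  · have := h 6; simp [Fin.sum_univ_succ, edge] at this; omega
  · have := h 7; simp [Fin.sum_univ_succ, edge] at this; omega
  · have := h 8; simp [Fin.sum_univ_succ, edge] at this; omega
  · have := h 9; simp [Fin.sum_univ_succ, edge] at this; omega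

/-- A matching that covers all the vertices is one of the eight perfect matchings. -/
theorem exists_pm (M : Matching G)
    (h : ∀ x : Fin 10,
      ∑ i : Fin 16, (if x ∈ edge i then (if edge i ∈ M.1 then 1 else 0) else 0) = 1) :
    ∃ k, M = pm k := by
  obtain ⟨k, hk⟩ := classify' (fun i => if edge i ∈ M.1 then 1 else 0) h
  refine ⟨k, Subtype.ext ?_⟩
  have key : ∀ i, edge i ∈ M.1 ↔ edge i ∈ (pm k).1 := by
    intro i
    rw [mem_pm]
    have h1 := hk i
    rw [tab_eq] at h1
    by_cases h2 : edge i ∈ M.1 <;> by_cases h3 : i ∈ pmIdx k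
    · exact ⟨fun _ => h3, fun _ => h2⟩
    · rw [if_neg h3] at h1
      exact absurd h1 (by rw [if_pos h2]; norm_num)
    · rw [if_pos h3] at h1
      exact absurd h1 (by rw [if_neg h2]; norm_num)
    · exact ⟨fun h => absurd h h2, fun h => absurd h h3⟩
  ext e
  constructor
  · intro he
    obtain ⟨i, rfl⟩ := mem_edge (M.2.1 e he)
    exact (key i).1 he
  · intro he
    obtain ⟨i, rfl⟩ := mem_edge ((pm k).2.1 e he)
    exact (key i).2 he

/-! ### The fibre -/

/-- The colour classes of the first edge colouring: `2 M_0 + M_2 + M_4 + M_7`. -/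
def cu : Fin 8 → ℕ := ![2, 0, 1, 0, 1, 0, 0, 1]

/-- The colour classes of the second edge colouring: `2 M_1 + M_3 + M_5 + M_6`. -/
def cv : Fin 8 → ℕ := ![0, 2, 0, 1, 0, 1, 1, 0]

/-- The monomial with the given exponents on the perfect matchings. -/
noncomputable def mon (c : Fin 8 → ℕ) : Matching G →₀ ℕ := ∑ k, Finsupp.single (pm k) (c k)

theorem mon_pm (c : Fin 8 → ℕ) (k : Fin 8) : mon c (pm k) = c k := by
  rw [mon, Finsupp.finsetSum_apply, Finset.sum_eq_single k]
  · rw [Finsupp.single_eq_same]
  · intro l _ hl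
    rw [Finsupp.single_eq_of_ne]
    intro h
    exact hl (pm_inj h).symm
  · intro h
    exact absurd (Finset.mem_univ _) h

theorem eq_mon {w : Matching G →₀ ℕ} (h : ∀ M ∈ w.support, ∃ k, M = pm k) :
    w = mon (fun k => w (pm k)) := by
  ext M
  by_cases hM : ∃ k, M = pm k
  · obtain ⟨k, rfl⟩ := hM
    rw [mon_pm]
  · have h1 : w M = 0 := by
      by_contra hc
      exact hM (h M (Finsupp.mem_support_iff.2 hc))
    rw [h1, mon, Finsupp.finsetSum_apply]
    symm
    apply Finset.sum_eq_zero
    intro k _
    rw [Finsupp.single_eq_of_ne]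
    intro hc
    exact hM ⟨k, hc⟩

/-- A sum over the support of a monomial in the perfect matchings. -/
theorem sum_mon (c : Fin 8 → ℕ) (f : Matching G → ℕ) :
    ∑ M ∈ (mon c).support, mon c M * f M = ∑ k, c k * f (pm k) := by
  classical
  have h1 : (mon c).support ⊆ Finset.univ.image pm := by
    intro M hM
    by_contra hc
    apply Finsupp.mem_support_iff.1 hM
    rw [mon, Finsupp.finsetSum_apply]
    apply Finset.sum_eq_zero
    intro k _
    rw [Finsupp.single_eq_of_ne]
    intro h
    exact hc (Finset.mem_image.2 ⟨k, Finset.mem_univ _, h.symm⟩)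
  rw [Finset.sum_subset h1, Finset.sum_image fun k _ l _ h => pm_inj h]
  · apply Finset.sum_congr rfl
    intro k _
    rw [mon_pm]
  · intro M _ hM
    rw [Finsupp.notMem_support_iff.1 hM, zero_mul]

theorem Pi_mon_none (c : Fin 8 → ℕ) : Pi G (mon c) none = ∑ k, c k := by
  rw [Pi_none]
  have := sum_mon c (fun _ => 1)
  simpa using this

theorem Pi_mon_some (c : Fin 8 → ℕ) (i : Fin 16) :
    Pi G (mon c) (some (edge i)) = ∑ k, c k * (if i ∈ pmIdx k then 1 else 0) := by
  rw [Pi_some, sum_mon c (fun M => if edge i ∈ M.1 then 1 else 0)]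
  apply Finset.sum_congr rfl
  intro k _
  congr 1
  by_cases h : i ∈ pmIdx k
  · rw [if_pos h, if_pos ((mem_pm k i).2 h)]
  · rw [if_neg h, if_neg fun h' => h ((mem_pm k i).1 h')]

theorem Pi_cu_none : Pi G (mon cu) none = 5 := by rw [Pi_mon_none]; decide

theorem Pi_cu_some (i : Fin 16) : Pi G (mon cu) (some (edge i)) = mul i := by
  rw [Pi_mon_some]
  revert i
  decide

theorem Pi_some_of_notMem (m : Matching G →₀ ℕ) {e : Sym2 (Fin 10)} (he : e ∉ G.edgeSet) :
    Pi G m (some e) = 0 := by
  rw [Pi_some]
  apply Finset.sum_eq_zero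
  intro M _
  rw [if_neg fun h => he (M.2.1 e h), mul_zero]

theorem Pi_cu_cv : Pi G (mon cu) = Pi G (mon cv) := by
  ext o
  rcases o with _ | e
  · rw [Pi_mon_none, Pi_mon_none]; decide
  · by_cases he : e ∈ G.edgeSet
    · obtain ⟨i, rfl⟩ := mem_edge he
      rw [Pi_mon_some, Pi_mon_some]
      clear he
      revert i
      decide
    · rw [Pi_some_of_notMem _ he, Pi_some_of_notMem _ he]

theorem mul_vertex : ∀ x : Fin 10, ∑ i : Fin 16, (if x ∈ edge i then mul i else 0) = 5 := by
  decide

/-- Every matching in a monomial of the fibre is perfect. -/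
theorem support_pm {w : Matching G →₀ ℕ} (h : Pi G w = Pi G (mon cu)) :
    ∀ M ∈ w.support, ∃ k, M = pm k := by
  intro M hM
  apply exists_pm
  intro x
  have h0 : ∑ M ∈ w.support, w M = 5 := by rw [← Pi_none, h, Pi_cu_none]
  have hi : ∀ i, ∑ M ∈ w.support, w M * (if edge i ∈ M.1 then 1 else 0) = mul i := by
    intro i
    rw [← Pi_some, h, Pi_cu_some]
  have h1 : ∑ M ∈ w.support, w M *
      ∑ i : Fin 16, (if x ∈ edge i then (if edge i ∈ M.1 then 1 else 0) else 0) = 5 := by
    rw [← mul_vertex x]
    simp_rw [Finset.mul_sum]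
    rw [Finset.sum_comm]
    apply Finset.sum_congr rfl
    intro i _
    by_cases hx : x ∈ edge i
    · simp only [if_pos hx]
      exact hi i
    · simp only [if_neg hx, mul_zero, Finset.sum_const_zero]
  by_contra hne
  have hlt := lt_of_le_of_ne (vertex_le M x) hne
  have hM0 : 0 < w M := Nat.pos_of_ne_zero (Finsupp.mem_support_iff.1 hM)
  have h2 : ∑ M ∈ w.support, w M *
      ∑ i : Fin 16, (if x ∈ edge i then (if edge i ∈ M.1 then 1 else 0) else 0) <
      ∑ M ∈ w.support, w M * 1 := by
    apply Finset.sum_lt_sum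
    · intro M' _
      exact Nat.mul_le_mul_left _ (vertex_le M' x)
    · exact ⟨M, hM, Nat.mul_lt_mul_of_pos_left hlt hM0⟩
  simp only [mul_one] at h2
  omega

theorem fibre (w : Matching G →₀ ℕ) (h : Pi G w = Pi G (mon cu)) : w = mon cu ∨ w = mon cv := by
  have hw := eq_mon (support_pm h)
  set c : Fin 8 → ℕ := fun k => w (pm k) with hc
  have h1 : ∀ i, ∑ k, c k * (if i ∈ pmIdx k then 1 else 0) = mul i := by
    intro i
    rw [← Pi_mon_some, ← hw, h, Pi_cu_some]
  have e0 := h1 0
  have e1 := h1 1
  have e2 := h1 2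
  have e3 := h1 3
  have e4 := h1 4
  have e5 := h1 5
  have e6 := h1 6
  have e7 := h1 7
  have e8 := h1 8
  have e9 := h1 9
  have e10 := h1 10
  have e11 := h1 11
  simp [Fin.sum_univ_succ, pmIdx, mul] at e0 e1 e2 e3 e4 e5 e6 e7 e8 e9 e10 e11
  have h2 : c = cu ∨ c = cv := by
    rcases (by omega : c 4 = 1 ∨ c 4 = 0) with h4 | h4
    · left
      funext k
      fin_cases k <;> simp [cu] <;> omega
    · right
      funext k
      fin_cases k <;> simp [cv] <;> omega
  rcases h2 with h2 | h2
  · left; rw [hw, h2]
  · right; rw [hw, h2]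

/-- **Negative answer to Q1.** There is a graph `G` (with 10 vertices and 16 edges) such that for
every field `K` every generating set of the toric ideal of the matching polytope of `G` contains
an element of degree at least five. -/
theorem result : ∃ G : SimpleGraph (Fin 10), ∀ (K : Type v) [Field K]
    (S : Set (MvPolynomial (Matching G) K)), Ideal.span S = toricIdeal G K →
      ∃ p ∈ S, 5 ≤ p.totalDegree := by
  refine ⟨G, fun K _ S hS => ?_⟩
  refine exists_degree G K Pi_cu_cv ?_ (D := 4) ?_ fibre ?_ S hS
  · intro h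
    have := DFunLike.congr_fun h (pm 0)
    rw [mon_pm, mon_pm] at this
    exact absurd this (by decide)
  · have h1 := Pi_none G (mon cu)
    rw [Pi_cu_none] at h1
    rw [Finsupp.degree_apply, ← h1]
    norm_num
  · intro M
    by_cases hM : ∃ k, M = pm k
    · obtain ⟨k, rfl⟩ := hM
      rw [mon_pm, mon_pm]
      revert k
      decide
    · left
      rw [mon, Finsupp.finsetSum_apply]
      apply Finset.sum_eq_zero
      intro k _
      rw [Finsupp.single_eq_of_ne]
      intro hc
      exact hM ⟨k, hc⟩

end Pool.Agent.Results.MP_2a9801_co.DegreeFive
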